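import Pool.Agent.TH158.FM.Stm

set_option autoImplicit false

/-! # Explicit fourth moment: the norm over `x > 2π` -/

namespace Pool.Agent.TH525.FM

open Complex MeasureTheory Set Filter Topology Pool.Agent.TH158.FM
open scoped ENNReal

noncomputable section

/-! ## The unit `ww` and the polar part -/

theorem ww_re (δ : ℝ) : (ww δ).re = Real.sin δ := by
  unfold ww
  rw [Complex.add_re, Complex.ofReal_re, Complex.mul_re, Complex.ofReal_re, Complex.ofReal_im,
    Complex.I_re, Complex.I_im]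
  ring

theorem ww_im (δ : ℝ) : (ww δ).im = Real.cos δ := by
  unfold ww
  rw [Complex.add_im, Complex.ofReal_im, Complex.mul_im, Complex.ofReal_re, Complex.ofReal_im,
    Complex.I_re, Complex.I_im]
  ring

theorem norm_ww (δ : ℝ) : ‖ww δ‖ = 1 := by
  have h : ‖ww δ‖ ^ 2 = 1 := by
    rw [← Complex.normSq_eq_norm_sq, Complex.normSq_apply, ww_re, ww_im]
    have := Real.sin_sq_add_cos_sq δ
    nlinarith
  have h0 : 0 ≤ ‖ww δ‖ := norm_nonneg _
  nlinarith

theorem norm_PP_sq (δ x : ℝ) : ‖PP δ x‖ ^ 2 =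
    ((Real.eulerMascheroniConstant - Real.log x) ^ 2 + (Real.pi / 2 - δ) ^ 2) / x ^ 2 := by
  unfold PP
  rw [norm_div, norm_mul, norm_ww, mul_one, div_pow, Complex.norm_real, Real.norm_eq_abs, sq_abs]
  congr 1
  rw [← Complex.normSq_eq_norm_sq, Complex.normSq_apply]
  simp
  ring

theorem log_sq_le {x : ℝ} (hx : 1 ≤ x) : Real.log x ^ 2 ≤ 2.17 * x ^ (1 / 2 : ℝ) := by
  have hx0 : 0 < x := by linarith
  set y := x ^ (1 / 4 : ℝ) with hy
  have hy0 : 0 < y := Real.rpow_pos_of_pos hx0 _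
  have hy2 : x ^ (1 / 2 : ℝ) = y ^ 2 := by
    rw [hy, ← Real.rpow_natCast, ← Real.rpow_mul hx0.le]
    norm_num
  have hlog : Real.log x = 4 * Real.log y := by
    rw [hy, Real.log_rpow hx0]
    ring
  have he : Real.log y ≤ y / Real.exp 1 := by
    have h1 := Real.log_le_sub_one_of_pos (show 0 < y / Real.exp 1 by positivity)
    rw [Real.log_div hy0.ne' (Real.exp_pos 1).ne', Real.log_exp] at h1
    linarith
  have he2 : y / Real.exp 1 ≤ y * 0.3679 := by
    rw [div_le_iff₀ (Real.exp_pos 1)]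
    have := Real.exp_one_gt_d9
    nlinarith
  have hl0 : 0 ≤ Real.log x := Real.log_nonneg hx
  rw [hy2]
  have h3 : Real.log x ≤ 1.4716 * y := by linarith
  calc Real.log x ^ 2 ≤ (1.4716 * y) ^ 2 := pow_le_pow_left₀ hl0 h3 2
    _ ≤ 2.17 * y ^ 2 := by nlinarith [sq_nonneg y]

theorem norm_PP_le {δ x : ℝ} (hδ : 0 < δ) (hδ' : δ ≤ 1) (hx : 2 * Real.pi < x) :
    ‖PP δ x‖ ^ 2 ≤ 2.17 * x ^ (-(3 / 2) : ℝ) + 2.4675 * x ^ (-2 : ℝ) := by
  have hpi := Real.pi_gt_three
  have hpi2 := Real.pi_lt_d4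
  have hx0 : 0 < x := by linarith
  have hx1 : 1 ≤ x := by linarith
  rw [norm_PP_sq]
  have hγ1 := Real.one_half_lt_eulerMascheroniConstant
  have hγ2 := Real.eulerMascheroniConstant_lt_two_thirds
  have hlog : 2 / 3 ≤ Real.log x := by
    have h1 : Real.log (Real.exp 1) ≤ Real.log x :=
      Real.log_le_log (Real.exp_pos 1) (by have := Real.exp_one_lt_d9; linarith)
    rw [Real.log_exp] at h1
    linarith
  have h1 : (Real.eulerMascheroniConstant - Real.log x) ^ 2 ≤ Real.log x ^ 2 := by nlinarith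
  have h2 := log_sq_le hx1
  have h3 : (Real.pi / 2 - δ) ^ 2 ≤ 2.4675 := by nlinarith
  have e1 : x ^ (-(3 / 2) : ℝ) = x ^ (1 / 2 : ℝ) / x ^ 2 := by
    rw [← Real.rpow_natCast, ← Real.rpow_sub hx0]
    norm_num
  have e2 : x ^ (-2 : ℝ) = 1 / x ^ 2 := by
    rw [Real.rpow_neg hx0.le, one_div]
    norm_num
  rw [e1, e2, ← mul_div_assoc, ← mul_div_assoc, mul_one, ← add_div]
  apply div_le_div_of_nonneg_right _ (by positivity)
  linarith

theorem PP_cont (δ : ℝ) : ContinuousOn (fun x : ℝ => PP δ x) (Ioi (2 * Real.pi)) := by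
  have hpi := Real.pi_pos
  unfold PP
  apply ContinuousOn.div
  · apply ContinuousOn.sub
    · apply Complex.continuous_ofReal.comp_continuousOn
      apply ContinuousOn.sub continuousOn_const
      apply Real.continuousOn_log.mono
      intro x hx
      have : 2 * Real.pi < x := hx
      simp only [mem_compl_iff, mem_singleton_iff]
      linarith
    · exact continuousOn_const
  · exact (Complex.continuous_ofReal.mul continuous_const).continuousOn
  · intro x hx
    have h1 : 2 * Real.pi < x := hx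
    have h2 : (x : ℂ) ≠ 0 := by
      rw [Ne, Complex.ofReal_eq_zero]; linarith
    have h3 : ww δ ≠ 0 := by
      intro h
      have := norm_ww δ
      rw [h, norm_zero] at this
      exact zero_ne_one this
    exact mul_ne_zero h2 h3

theorem PP_int {δ : ℝ} (hδ : 0 < δ) (hδ' : δ ≤ 1) :
    IntegrableOn (fun x : ℝ => ‖PP δ x‖ ^ 2) (Ioi (2 * Real.pi)) ∧
    ∫ x in Ioi (2 * Real.pi), ‖PP δ x‖ ^ 2 ≤ 4 := by
  have hpi := Real.pi_gt_d4
  have hpi0 : (0 : ℝ) < 2 * Real.pi := by linarith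
  have i1 : IntegrableOn (fun x : ℝ => 2.17 * x ^ (-(3 / 2) : ℝ)) (Ioi (2 * Real.pi)) :=
    (integrableOn_Ioi_rpow_of_lt (by norm_num) hpi0).const_mul _
  have i2 : IntegrableOn (fun x : ℝ => 2.4675 * x ^ (-2 : ℝ)) (Ioi (2 * Real.pi)) :=
    (integrableOn_Ioi_rpow_of_lt (by norm_num) hpi0).const_mul _
  have hm : AEStronglyMeasurable (fun x : ℝ => ‖PP δ x‖ ^ 2)
      (volume.restrict (Ioi (2 * Real.pi))) :=
    (((PP_cont δ).norm).pow 2).aestronglyMeasurable measurableSet_Ioi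
  have hle : ∀ x ∈ Ioi (2 * Real.pi), ‖PP δ x‖ ^ 2 ≤
      2.17 * x ^ (-(3 / 2) : ℝ) + 2.4675 * x ^ (-2 : ℝ) := fun x hx => norm_PP_le hδ hδ' hx
  have hI : IntegrableOn (fun x : ℝ => ‖PP δ x‖ ^ 2) (Ioi (2 * Real.pi)) := by
    refine Integrable.mono' (i1.add i2) hm ?_
    rw [ae_restrict_iff' measurableSet_Ioi]
    filter_upwards with x hx
    rw [Real.norm_of_nonneg (by positivity)]
    exact hle x hx
  refine ⟨hI, ?_⟩
  calc ∫ x in Ioi (2 * Real.pi), ‖PP δ x‖ ^ 2
      ≤ ∫ x in Ioi (2 * Real.pi), (2.17 * x ^ (-(3 / 2) : ℝ) + 2.4675 * x ^ (-2 : ℝ)) :=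
        setIntegral_mono_on hI (i1.add i2) measurableSet_Ioi hle
    _ = 2.17 * (∫ x in Ioi (2 * Real.pi), x ^ (-(3 / 2) : ℝ)) +
        2.4675 * ∫ x in Ioi (2 * Real.pi), x ^ (-2 : ℝ) := by
        rw [integral_add i1 i2, integral_const_mul, integral_const_mul]
    _ ≤ 4 := by
        rw [integral_Ioi_rpow_of_lt (by norm_num) hpi0, integral_Ioi_rpow_of_lt (by norm_num) hpi0]
        have e1 : (2 * Real.pi) ^ (-(3 / 2) + 1 : ℝ) ≤ 0.4 := by
          have h1 : (-(3 / 2) + 1 : ℝ) = -(1 / 2) := by norm_num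
          rw [h1, Real.rpow_neg hpi0.le, ← Real.sqrt_eq_rpow]
          have h2 : (2.5 : ℝ) ≤ Real.sqrt (2 * Real.pi) := by
            apply Real.le_sqrt_of_sq_le
            norm_num
            linarith
          calc (Real.sqrt (2 * Real.pi))⁻¹ ≤ (2.5 : ℝ)⁻¹ := inv_anti₀ (by norm_num) h2
            _ = 0.4 := by norm_num
        have e2 : (2 * Real.pi) ^ (-2 + 1 : ℝ) ≤ 1 / 6 := by
          have h1 : (-2 + 1 : ℝ) = -1 := by norm_num
          rw [h1, Real.rpow_neg_one]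
          calc (2 * Real.pi)⁻¹ ≤ (6 : ℝ)⁻¹ := inv_anti₀ (by norm_num) (by linarith)
            _ = 1 / 6 := by norm_num
        norm_num at e1 e2 ⊢
        linarith

/-! ## The partial sums -/

/-- partial sum of `FF` -/
def FM (δ : ℝ) (M : ℕ) (x : ℝ) : ℂ :=
  ∑ n ∈ Finset.Icc 1 M, (dd n : ℂ) * Complex.exp (-((n * x : ℝ) : ℂ) * ww δ)

theorem norm_term (δ : ℝ) (n : ℕ) (x : ℝ) :
    ‖(dd n : ℂ) * Complex.exp (-((n * x : ℝ) : ℂ) * ww δ)‖ =
      dd n * Real.exp (-(n * x * Real.sin δ)) := by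
  have h0 : 0 ≤ dd n := by unfold dd; positivity
  rw [norm_mul, Complex.norm_exp, Complex.norm_real, Real.norm_of_nonneg h0]
  congr 2
  rw [Complex.mul_re, Complex.neg_re, Complex.neg_im, Complex.ofReal_re, Complex.ofReal_im, ww_re]
  ring

theorem dd_le (n : ℕ) : dd n ≤ n := by
  unfold dd
  exact_mod_cast Nat.card_divisors_le_self n

theorem dd_zero : dd 0 = 0 := by simp [dd]

theorem FM_cont (δ : ℝ) (M : ℕ) : Continuous (FM δ M) := by
  unfold FM
  fun_prop

theorem summable_term {δ x : ℝ} (hS : 0 < Real.sin δ) (hx : 0 < x) :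
    Summable (fun n : ℕ => (dd n : ℂ) * Complex.exp (-((n * x : ℝ) : ℂ) * ww δ)) := by
  apply Summable.of_norm
  have hr : ‖Real.exp (-(x * Real.sin δ))‖ < 1 := by
    rw [Real.norm_of_nonneg (Real.exp_pos _).le, Real.exp_lt_one_iff]
    have := mul_pos hx hS
    linarith
  refine Summable.of_nonneg_of_le (fun n => norm_nonneg _) (fun n => ?_)
    (summable_pow_mul_geometric_of_norm_lt_one 1 hr)
  rw [norm_term, pow_one, ← Real.exp_nat_mul]
  have e : (n : ℝ) * -(x * Real.sin δ) = -(n * x * Real.sin δ) := by ring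
  rw [e]
  exact mul_le_mul_of_nonneg_right (dd_le n) (Real.exp_pos _).le

theorem FM_tendsto {δ x : ℝ} (hS : 0 < Real.sin δ) (hx : 0 < x) :
    Tendsto (fun M : ℕ => FM δ M x) atTop (𝓝 (FF δ x)) := by
  have h := (summable_term hS hx).hasSum.tendsto_sum_nat
  have h2 := h.comp (tendsto_add_atTop_nat 1)
  refine h2.congr fun M => ?_
  show ∑ i ∈ Finset.range (M + 1), _ = FM δ M x
  unfold FM
  rw [Finset.range_eq_Ico, Finset.sum_eq_sum_Ico_succ_bot (by omega), dd_zero]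
  simp only [Complex.ofReal_zero, zero_mul, zero_add]
  rfl

theorem FM_norm_le {δ x : ℝ} (hS : 0 < Real.sin δ) (hx : 0 < x) (M : ℕ) :
    ‖FM δ M x‖ ≤ (∑ n ∈ Finset.Icc 1 M, dd n) * Real.exp (-(x * Real.sin δ)) := by
  unfold FM
  refine (norm_sum_le _ _).trans ?_
  rw [Finset.sum_mul]
  refine Finset.sum_le_sum fun n hn => ?_
  rw [norm_term]
  have h0 : 0 ≤ dd n := by unfold dd; positivity
  apply mul_le_mul_of_nonneg_left _ h0
  apply Real.exp_le_exp.2
  have h1 : (1 : ℝ) ≤ n := by exact_mod_cast (Finset.mem_Icc.1 hn).1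
  have := mul_pos hx hS
  nlinarith

theorem FM_int {δ : ℝ} (hS : 0 < Real.sin δ) (M : ℕ) :
    IntegrableOn (fun x : ℝ => ‖FM δ M x‖ ^ 2) (Ioi (2 * Real.pi)) := by
  have hpi := Real.pi_pos
  set K := ∑ n ∈ Finset.Icc 1 M, dd n with hK
  have hK0 : 0 ≤ K := Finset.sum_nonneg fun n _ => by unfold dd; positivity
  have i1 : IntegrableOn (fun x : ℝ => K ^ 2 * Real.exp (-(2 * Real.sin δ) * x))
      (Ioi (2 * Real.pi)) := (exp_neg_integrableOn_Ioi _ (by linarith)).const_mul _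
  refine Integrable.mono' i1 ((FM_cont δ M).norm.pow 2).aestronglyMeasurable ?_
  rw [ae_restrict_iff' measurableSet_Ioi]
  filter_upwards with x hx
  have hx0 : 0 < x := by have : 2 * Real.pi < x := hx; linarith
  rw [Real.norm_of_nonneg (by positivity)]
  calc ‖FM δ M x‖ ^ 2 ≤ (K * Real.exp (-(x * Real.sin δ))) ^ 2 :=
        pow_le_pow_left₀ (norm_nonneg _) (FM_norm_le hS hx0 M) 2
    _ = K ^ 2 * Real.exp (-(2 * Real.sin δ) * x) := by
        rw [mul_pow, ← Real.exp_nat_mul]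
        congr 2
        push_cast
        ring

end

end Pool.Agent.TH525.FM
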